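import Pool.Agent.H.MP_65d7a7_an.D

set_option autoImplicit false
open Set Metric TopologicalSpace

namespace Pool.Agent.Results.MP_65d7a7_an.No

/-- rational functions with poles off `K`, as continuous functions on `K` -/
def rat (K : Compacts ℂ) : Set C(K, ℂ) :=
  {f | ∃ p q : Polynomial ℂ, (∀ z : K, q.eval (z : ℂ) ≠ 0) ∧ ∀ z : K, f z = p.eval (z : ℂ) / q.eval (z : ℂ)}

/-- the uniform algebra `R(K)` -/
noncomputable def R (K : Compacts ℂ) : Subalgebra ℂ C(K, ℂ) := (Algebra.adjoin ℂ (rat K)).topologicalClosure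

def Peak (K : Compacts ℂ) (x : K) : Prop := ∃ f ∈ R K, f x = 1 ∧ ∀ y, y ≠ x → ‖f y‖ < 1

def Cheese (K : Compacts ℂ) : Prop :=
  ∃ (c : ℂ) (ρ : ℝ) (a : ℕ → ℂ) (r : ℕ → ℝ), 0 < ρ ∧ (∀ n, 0 < r n) ∧
    (∀ m n, m ≠ n → Disjoint (closedBall (a m) (r m)) (closedBall (a n) (r n))) ∧
    (∀ n, closedBall (a n) (r n) ⊆ ball c ρ) ∧ Summable r ∧
    (K : Set ℂ) = closedBall c ρ \ ⋃ n, ball (a n) (r n) ∧ interior (K : Set ℂ) = ∅

theorem result (K : Compacts ℂ) (h : Cheese K ∨ (interior (K : Set ℂ) = ∅ ∧ ∃ x, ¬ Peak K x)) :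
    ∃ x : K, ¬ Peak K x ∧
      ∀ D : R K →L[ℂ] ℂ, (∀ f g : R K, D (f * g) = f.1 x * D g + g.1 x * D f) → D = 0 := by
  have e : R K = (H.MP_65d7a7_an.RA K).topologicalClosure := congrArg _ H.MP_65d7a7_an.adj
  unfold Peak at *
  rw [e] at h ⊢
  rcases h with ⟨c, ρ, a, r, h1, h2, h3, h4, h5, h6, h7⟩ | ⟨h1, h2⟩
  · exact H.MP_65d7a7_an.gen h7 (H.MP_65d7a7_an.Ch.nonpeak ⟨h1, h2, h3, h4, h5, h6⟩)
  · exact H.MP_65d7a7_an.gen h1 h2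

end Pool.Agent.Results.MP_65d7a7_an.No
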